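import Pool.Agent.Q86.PConv.Main

/-!
# Asymmetry of `p`-convolvers on groups with a non-abelian free subgroup

Let `G` be a group with a free subgroup of rank two and `1 < p < ∞`, `p ≠ 2`. There is `f : G → [0, ∞)` which
is a `p`-convolver while `f^*(g) = conj (f (g⁻¹))` is not a `p`-convolver.

Construction (`p < 2`). Let `a, x_0, x_1, ...` be free generators of a free subgroup of infinite rank and put
`f (a^s x_i) = (i+1)^(-(K+1/2))` for `s < (i+1)^K`, `f = 0` elsewhere, where `K (p - 1) ≥ 1`. Split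
`ξ (x_i⁻¹ a^{-s} u)` according to the first letter `x_i` of `a^{-s} u`: in the first part at most one pair
`(s, i)` contributes to each `u`, in the second part `x_i⁻¹ a^{-s} u` begins with `x_i⁻¹`, and Hölder's
inequality suffices. For `f^*`, test on `{a^t : t < 2n}`. The case `p > 2` follows by duality.
-/

set_option autoImplicit false

namespace Pool.Agent.Results.MP_830418_an.FreeSubgroup

open Pool.Agent.Q86.PConv
open scoped NNReal

/-- Q1 for groups with a free subgroup of rank two. -/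
theorem result :
    ∀ p : ℝ, 1 < p → p ≠ 2 → ∀ (G : Type*) [Group G],
      (∃ a b : G, Function.Injective (FreeGroup.lift ![a, b])) →
      ∃ f : G → ℂ, (∀ g, ∃ r : ℝ, 0 ≤ r ∧ f g = (r : ℂ)) ∧
        (∃ C : ℝ, ∀ ξ : G →₀ ℂ,
          Summable (fun g : G => ‖∑ k ∈ ξ.support, f (g * k⁻¹) * ξ k‖ ^ p) ∧
          ∑' g : G, ‖∑ k ∈ ξ.support, f (g * k⁻¹) * ξ k‖ ^ p
            ≤ C * ∑ k ∈ ξ.support, ‖ξ k‖ ^ p) ∧
        ¬ (∃ C : ℝ, ∀ ξ : G →₀ ℂ,
          Summable (fun g : G =>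
            ‖∑ k ∈ ξ.support, starRingEnd ℂ (f ((g * k⁻¹)⁻¹)) * ξ k‖ ^ p) ∧
          ∑' g : G, ‖∑ k ∈ ξ.support, starRingEnd ℂ (f ((g * k⁻¹)⁻¹)) * ξ k‖ ^ p
            ≤ C * ∑ k ∈ ξ.support, ‖ξ k‖ ^ p) := by
  intro p hp1 hp2 G _ hG
  obtain ⟨pp⟩ := exists_pingPong hG
  obtain ⟨h, h1, h2⟩ := main_conv pp p hp1 hp2
  refine ⟨fun g => ((h g : ℝ) : ℂ), fun g => ⟨_, NNReal.coe_nonneg _, rfl⟩, h1, fun h3 => h2 ?_⟩
  unfold Conv
  simpa only [Complex.conj_ofReal] using h3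

end Pool.Agent.Results.MP_830418_an.FreeSubgroup
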